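import Mathlib
import Pool.Agent.helper8.GK.Lines

set_option autoImplicit false

/-!
# Many geometric permutations of `k`-flats

Problem MP_06d6be_co asks for the order of growth of `g_k^d(n)`, the largest number of geometric
permutations (order types, up to reversal, in which transversal `k`-flats meet the members) of a
`(k-1)`-separated family of `n` compact convex sets in `ℝ^d`.

We prove `g_k^d(n) ≥ c n ^ (2 (d - k))` for all `2 ≤ k < d`, and `g_1^d(n) ≥ c n ^ (2 d - 3)`.
In particular `g_2^3(n) ≥ c n ^ 2`, which matches the known upper bound `O(n ^ 2)`.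

Idea for planes in `ℝ³` (coordinates `x, y, z`; planes `z = α x + β y + γ`).  Every set lies at one
level `y = y_i`, so that in a plane the set `i` is seen at `(x_i, y_i)`, and three levels
`y_i < y_j < y_k` can be met by a common line only if a line does not separate the middle set from
the two others.  The order type of a transversal depends only on its slope `α`; the slopes form
`m` groups, and `m` near sets (hulls of points on a line at level `-2 b`) separate, by the sign of
the orientation of triples, the members of one group.  The points of one group are brought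
together on a line carrying one of `2 m` far sets, at levels of very different orders of magnitude
(`Base.lean`, `Wall.lean`).  Products and lifts of such configurations (`Core.lean`, `Lift.lean`)
give the general case.
-/

namespace Pool.Agent.Results.MP_06d6be_co.FlatsLowerBound

open Pool.Agent.helper8.GK Module

/-- Euclidean space `ℝ^d` -/
abbrev E (d : ℕ) : Type := EuclideanSpace ℝ (Fin d)

/-- `F` is a `j`-flat -/
def IsFlat {d : ℕ} (j : ℕ) (F : AffineSubspace ℝ (E d)) : Prop :=
  (F : Set (E d)).Nonempty ∧ finrank ℝ F.direction = j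

/-- `A` is a `(k-1)`-separated family of `n` compact convex sets in `ℝ^d`: for `0 ≤ j ≤ k - 1` no
`j + 2` members have a common `j`-transversal. -/
structure IsSeparatedFamily {d n : ℕ} (k : ℕ) (A : Fin n → Set (E d)) : Prop where
  compact : ∀ i, IsCompact (A i)
  convex : ∀ i, Convex ℝ (A i)
  separated : ∀ j < k, ∀ s : Finset (Fin n), s.card = j + 2 →
    ¬ ∃ F : AffineSubspace ℝ (E d), IsFlat j F ∧ ∀ i ∈ s, (A i ∩ F).Nonempty

/-- The order type of the points `x 0, …, x (n - 1)` of `ℝ^k`: it maps every index tuple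
`i_0 < … < i_k` to the sign of `det [(1, x i_0), …, (1, x i_k)]`. -/
noncomputable def orderType {k n : ℕ} (x : Fin n → Fin k → ℝ) : (Fin (k + 1) ↪o Fin n) → SignType :=
  fun I => SignType.sign (Matrix.det (Matrix.of fun r c : Fin (k + 1) =>
    (Fin.cons 1 (x (I r)) : Fin (k + 1) → ℝ) c))

/-- The `k`-flat `φ (ℝ^k)`, oriented and identified with `ℝ^k` by the injective affine map `φ`,
meets all members of `A` and induces on them the `k`-ordering `χ`. -/
def Induces {d n k : ℕ} (A : Fin n → Set (E d)) (φ : (Fin k → ℝ) →ᵃ[ℝ] E d)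
    (χ : (Fin (k + 1) ↪o Fin n) → SignType) : Prop :=
  Function.Injective φ ∧ ∃ x : Fin n → Fin k → ℝ, (∀ i, φ (x i) ∈ A i) ∧ χ = orderType x

/-- The geometric permutations of the family `A`: the unordered pairs `{χ, -χ}` of `k`-orderings
induced by the two orientations of `k`-transversals. -/
def geometricPermutations {d n : ℕ} (k : ℕ) (A : Fin n → Set (E d)) :
    Set (Sym2 ((Fin (k + 1) ↪o Fin n) → SignType)) :=
  {g | ∃ (φ : (Fin k → ℝ) →ᵃ[ℝ] E d) (χ : (Fin (k + 1) ↪o Fin n) → SignType),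
    Induces A φ χ ∧ g = s(χ, -χ)}

/-- `g_k^d(n)`: the largest number of geometric permutations of a `(k-1)`-separated family of `n`
compact convex sets in `ℝ^d` (by `bddAbove_count` below this is a supremum of a bounded set of
natural numbers, so a maximum). -/
noncomputable def g (k d n : ℕ) : ℕ :=
  sSup {N : ℕ | ∃ A : Fin n → Set (E d),
    IsSeparatedFamily k A ∧ (geometricPermutations k A).ncard = N}

theorem bddAbove_count (k d n : ℕ) : BddAbove {N : ℕ | ∃ A : Fin n → Set (E d),
    IsSeparatedFamily k A ∧ (geometricPermutations k A).ncard = N} := by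
  have : Finite (Fin (k + 1) ↪o Fin n) := DFunLike.finite _
  refine ⟨Nat.card (Sym2 ((Fin (k + 1) ↪o Fin n) → SignType)), ?_⟩
  rintro N ⟨A, -, rfl⟩
  exact Set.ncard_le_card _

/-! ### Order types -/

/-- a tuple on which two orientation determinants have opposite signs can be taken increasing -/
theorem orderType_ne {k n : ℕ} {x x' : Fin n → Fin k → ℝ} {I : Fin (k + 1) → Fin n}
    (h : detK x I * detK x' I < 0) : orderType x ≠ orderType x' := by
  have hinj : Function.Injective I := by
    intro r s hrs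
    by_contra hne
    have h0 : detK x I = 0 := by
      refine Matrix.det_zero_of_row_eq hne ?_
      funext c
      simp only [Matrix.of_apply, hrs]
    rw [h0, zero_mul] at h
    exact lt_irrefl _ h
  set σ : Equiv.Perm (Fin (k + 1)) := Tuple.sort I with hσ
  have hmono : StrictMono (I ∘ σ) :=
    (Tuple.monotone_sort I).strictMono_of_injective (hinj.comp σ.injective)
  have hperm : ∀ y : Fin n → Fin k → ℝ, detK y (I ∘ σ) = (Equiv.Perm.sign σ : ℝ) * detK y I := by
    intro y
    exact Matrix.det_permute σ (Matrix.of fun r c : Fin (k + 1) =>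
      (Fin.cons 1 (y (I r)) : Fin (k + 1) → ℝ) c)
  have hsq : ((Equiv.Perm.sign σ : ℤˣ) : ℝ) * ((Equiv.Perm.sign σ : ℤˣ) : ℝ) = 1 := by
    rcases Int.units_eq_one_or (Equiv.Perm.sign σ) with h1 | h1 <;> simp [h1]
  have h2 : detK x (I ∘ σ) * detK x' (I ∘ σ) < 0 := by
    rw [hperm, hperm]
    calc _ = (((Equiv.Perm.sign σ : ℤˣ) : ℝ) * ((Equiv.Perm.sign σ : ℤˣ) : ℝ)) *
          (detK x I * detK x' I) := by ring
      _ < 0 := by rw [hsq, one_mul]; exact h
  intro heq
  have h3 := congrFun heq (OrderEmbedding.ofStrictMono _ hmono)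
  have h4 : SignType.sign (detK x (I ∘ σ)) = SignType.sign (detK x' (I ∘ σ)) := h3
  rcases mul_neg_iff.mp h2 with ⟨h5, h6⟩ | ⟨h5, h6⟩
  · rw [sign_pos h5, sign_neg h6] at h4
    exact absurd h4 (by decide)
  · rw [sign_neg h5, sign_pos h6] at h4
    exact absurd h4 (by decide)

/-! ### Separation -/

theorem not_affineIndependent {d j : ℕ} {F : AffineSubspace ℝ (E d)} (hF : IsFlat j F)
    {ι : Type} [Fintype ι] (hι : Fintype.card ι = j + 2) {q : ι → E d} (hq : ∀ i, q i ∈ F) :
    ¬ AffineIndependent ℝ q := by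
  intro h
  have h1 : finrank ℝ (vectorSpan ℝ (Set.range q)) = j + 1 := h.finrank_vectorSpan hι
  have h2 : vectorSpan ℝ (Set.range q) ≤ F.direction := by
    rw [AffineSubspace.direction_eq_vectorSpan]
    apply vectorSpan_mono
    rintro _ ⟨i, rfl⟩
    exact hq i
  have h3 := Submodule.finrank_mono h2
  rw [h1, hF.2] at h3
  omega

/-- a family all of whose partitions of small subfamilies can be realised by hyperplanes is
separated -/
theorem separated_of_partition {d n k : ℕ} {A : Fin n → Set (E d)}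
    (h : ∀ s u : Finset (Fin n), s.card ≤ k + 1 → ∃ (f : E d →ₗ[ℝ] ℝ) (c : ℝ),
      ∀ i ∈ s, ∀ y ∈ A i, (i ∈ u → c < f y) ∧ (i ∉ u → f y < c))
    (j : ℕ) (hj : j < k) (s : Finset (Fin n)) (hs : s.card = j + 2) :
    ¬ ∃ F : AffineSubspace ℝ (E d), IsFlat j F ∧ ∀ i ∈ s, (A i ∩ F).Nonempty := by
  classical
  rintro ⟨F, hF, hA⟩
  have hA' : ∀ i : s, ∃ y, y ∈ A i ∧ y ∈ F := fun i => hA i i.2
  choose q hq1 hq2 using hA'
  have hdep : ¬ AffineIndependent ℝ q := by
    refine not_affineIndependent hF ?_ hq2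
    simpa using hs
  obtain ⟨I, hI⟩ := Convex.radon_partition hdep
  obtain ⟨f, c, hf⟩ := h s (s.filter fun i => ∃ h : i ∈ s, (⟨i, h⟩ : s) ∈ I) (by omega)
  obtain ⟨y, hy1, hy2⟩ := hI
  have hi : convexHull ℝ (q '' I) ⊆ {y | c < f y} := by
    refine convexHull_min ?_ (convex_halfSpace_gt f.isLinear c)
    rintro _ ⟨i, hi, rfl⟩
    exact (hf i i.2 (q i) (hq1 i)).1 (Finset.mem_filter.mpr ⟨i.2, i.2, hi⟩)
  have hi' : convexHull ℝ (q '' Iᶜ) ⊆ {y | f y < c} := by
    refine convexHull_min ?_ (convex_halfSpace_lt f.isLinear c)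
    rintro _ ⟨i, hi, rfl⟩
    refine (hf i i.2 (q i) (hq1 i)).2 (fun hmem => ?_)
    obtain ⟨_, _, hi2⟩ := Finset.mem_filter.mp hmem
    exact hi hi2
  have a1 : c < f y := hi hy1
  have a2 : f y < c := hi' hy2
  exact lt_asymm a1 a2

/-! ### From configurations to families of convex sets -/

theorem le_g {k c n N : ℕ} (h : GoodK k (Fin c → ℝ) (Fin n) (Fin N)) : N ≤ 2 * g k (k + c) n := by
  obtain ⟨x, a, b, h1, h2⟩ := h
  -- coordinates
  have e : ((Fin k → ℝ) × (Fin c → ℝ)) ≃ₗ[ℝ] E (k + c) :=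
    LinearEquiv.ofFinrankEq _ _ (by simp)
  -- the sets
  set A : Fin n → Set (E (k + c)) := fun i =>
    convexHull ℝ (Set.range fun t : Fin N => e (x t i, a t + b t (x t i))) with hA
  have hmem : ∀ t i, e (x t i, a t + b t (x t i)) ∈ A i := fun t i =>
    subset_convexHull ℝ _ (Set.mem_range_self t)
  have hpart : ∀ s u : Finset (Fin n), s.card ≤ k + 1 →
      ∃ (f : E (k + c) →ₗ[ℝ] ℝ) (c : ℝ), ∀ i ∈ s, ∀ y ∈ A i,
        (i ∈ u → c < f y) ∧ (i ∉ u → f y < c) := by
    intro s u hs
    obtain ⟨f, c, hf⟩ := h1 s u hs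
    refine ⟨f ∘ₗ e.symm.toLinearMap, c, ?_⟩
    intro i hi y hy
    constructor
    · intro hu
      have hsub : A i ⊆ {y | c < (f ∘ₗ e.symm.toLinearMap) y} := by
        refine convexHull_min ?_ (convex_halfSpace_gt (LinearMap.isLinear _) c)
        rintro _ ⟨t, rfl⟩
        simpa using (hf i hi t).1 hu
      exact hsub hy
    · intro hu
      have hsub : A i ⊆ {y | (f ∘ₗ e.symm.toLinearMap) y < c} := by
        refine convexHull_min ?_ (convex_halfSpace_lt (LinearMap.isLinear _) c)
        rintro _ ⟨t, rfl⟩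
        simpa using (hf i hi t).2 hu
      exact hsub hy
  have hfam : IsSeparatedFamily k A := by
    refine ⟨fun i => ?_, fun i => convex_convexHull ℝ _, separated_of_partition hpart⟩
    exact (Set.finite_range _).isCompact_convexHull ℝ
  -- the flats
  set φ : Fin N → (Fin k → ℝ) →ᵃ[ℝ] E (k + c) := fun t =>
    (e.toLinearMap ∘ₗ LinearMap.prod LinearMap.id (b t)).toAffineMap +
      AffineMap.const ℝ (Fin k → ℝ) (e (0, a t)) with hφ
  have hφ1 : ∀ t v, φ t v = e (v, a t + b t v) := by
    intro t v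
    have h3 : φ t v = e (v, b t v) + e (0, a t) := rfl
    rw [h3, ← map_add]
    congr 1
    simp [add_comm]
  have hφ2 : ∀ t, Function.Injective (φ t) := by
    intro t v v' hv
    rw [hφ1, hφ1] at hv
    exact congrArg Prod.fst (e.injective hv)
  -- the order types
  set χ : Fin N → (Fin (k + 1) ↪o Fin n) → SignType := fun t => orderType (x t) with hχ
  have hχinj : Function.Injective χ := by
    intro t t' htt
    by_contra hne
    obtain ⟨I, hI⟩ := h2 t t' hne
    exact orderType_ne hI htt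
  have hind : ∀ t, Induces A (φ t) (χ t) := by
    intro t
    refine ⟨hφ2 t, x t, fun i => ?_, rfl⟩
    rw [hφ1]
    exact hmem t i
  -- count
  set ψ : Fin N → Sym2 ((Fin (k + 1) ↪o Fin n) → SignType) := fun t => s(χ t, -χ t) with hψ
  have hψmem : ∀ t, ψ t ∈ geometricPermutations k A := fun t => ⟨φ t, χ t, hind t, rfl⟩
  classical
  have hcard : N ≤ 2 * (Finset.univ.image ψ).card := by
    have := Finset.card_le_mul_card_image (f := ψ) (Finset.univ : Finset (Fin N)) 2 ?_
    · simpa using this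
    · intro g hg
      obtain ⟨t₀, -, rfl⟩ := Finset.mem_image.mp hg
      have h3 : (Finset.univ.filter fun t => ψ t = ψ t₀).image χ ⊆ {χ t₀, -χ t₀} := by
        intro τ hτ
        obtain ⟨t, ht, rfl⟩ := Finset.mem_image.mp hτ
        have h4 : ψ t = ψ t₀ := (Finset.mem_filter.mp ht).2
        have h5 : χ t ∈ ψ t₀ := by
          rw [← h4]
          exact Sym2.mem_mk_left _ _
        simpa [hψ] using h5
      calc (Finset.univ.filter fun t => ψ t = ψ t₀).card
          = ((Finset.univ.filter fun t => ψ t = ψ t₀).image χ).card :=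
            (Finset.card_image_of_injective _ hχinj).symm
        _ ≤ ({χ t₀, -χ t₀} : Finset _).card := Finset.card_le_card h3
        _ ≤ 2 := Finset.card_le_two
  have hsub : ((Finset.univ.image ψ : Finset _) :
      Set (Sym2 ((Fin (k + 1) ↪o Fin n) → SignType))) ⊆ geometricPermutations k A := by
    intro g hg
    obtain ⟨t, -, rfl⟩ := Finset.mem_image.mp (Finset.mem_coe.mp hg)
    exact hψmem t
  have : Finite (Fin (k + 1) ↪o Fin n) := DFunLike.finite _
  have h3 : (Finset.univ.image ψ).card ≤ (geometricPermutations k A).ncard := by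
    rw [← Set.ncard_coe_finset]
    exact Set.ncard_le_ncard hsub (Set.toFinite _)
  have h4 : (geometricPermutations k A).ncard ≤ g k (k + c) n :=
    le_csSup (bddAbove_count k (k + c) n) ⟨A, hfam, rfl⟩
  omega

/-! ### The main theorem -/

/-- from `m ^ r` order types with `3 m c + c'` sets to a lower bound for all `n` -/
theorem growth {k d r q p : ℕ} (hq : 1 ≤ q)
    (h : ∀ m n : ℕ, 1 ≤ m → q * m + p ≤ n → m ^ r ≤ 2 * g k d n) :
    ∃ c : ℝ, 0 < c ∧ ∃ n₀ : ℕ, ∀ n : ℕ, n₀ ≤ n → c * (n : ℝ) ^ r ≤ g k d n := by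
  refine ⟨1 / (2 * ((2 * q + p : ℕ) : ℝ) ^ r), by positivity, q + p, ?_⟩
  intro n hn
  set m := (n - p) / q with hm
  have hm1 : 1 ≤ m := (Nat.one_le_div_iff (by omega)).mpr (by omega)
  have hm2 : q * m ≤ n - p := Nat.mul_div_le _ _
  have h1 : m ^ r ≤ 2 * g k d n := h m n hm1 (by omega)
  have h2 : n - p < q * (m + 1) := Nat.lt_mul_div_succ _ (by omega)
  have h3 : n ≤ (2 * q + p) * m := by
    have h4 : q * (m + 1) ≤ 2 * q * m := by nlinarith
    have h5 : p ≤ p * m := by nlinarith
    have h6 : (2 * q + p) * m = 2 * q * m + p * m := by ring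
    omega
  have h4 : (n : ℝ) ≤ ((2 * q + p : ℕ) : ℝ) * m := by exact_mod_cast h3
  have h5 : (n : ℝ) ^ r ≤ ((2 * q + p : ℕ) : ℝ) ^ r * (m : ℝ) ^ r := by
    rw [← mul_pow]
    exact pow_le_pow_left₀ (by positivity) h4 r
  have h6 : ((m ^ r : ℕ) : ℝ) ≤ 2 * (g k d n : ℝ) := by exact_mod_cast h1
  push_cast at h6
  have h7 : (0 : ℝ) < ((2 * q + p : ℕ) : ℝ) ^ r := by positivity
  rw [div_mul_eq_mul_div, one_mul, div_le_iff₀ (by positivity)]
  calc (n : ℝ) ^ r ≤ ((2 * q + p : ℕ) : ℝ) ^ r * (m : ℝ) ^ r := h5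
    _ ≤ ((2 * q + p : ℕ) : ℝ) ^ r * (2 * (g k d n : ℝ)) := by gcongr
    _ = (g k d n : ℝ) * (2 * ((2 * q + p : ℕ) : ℝ) ^ r) := by ring

/-- **Many geometric permutations of `k`-flats.**  For all `2 ≤ k < d` we have
`g_k^d(n) ≥ c n ^ (2 (d - k))`, and for all `d ≥ 2` we have `g_1^d(n) ≥ c n ^ (2 d - 3)`. -/
theorem result (k d : ℕ) (hk : 1 ≤ k) (hd : k < d) :
    ∃ c : ℝ, 0 < c ∧ ∃ n₀ : ℕ, ∀ n : ℕ, n₀ ≤ n →
      c * (n : ℝ) ^ (if k = 1 then 2 * d - 3 else 2 * (d - k)) ≤ g k d n := by
  obtain ⟨c, rfl⟩ : ∃ c, d = k + c := ⟨d - k, by omega⟩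
  by_cases hk1 : k = 1
  · subst hk1
    rw [if_pos rfl]
    obtain ⟨K, rfl⟩ : ∃ K, c = K + 1 := ⟨c - 1, by omega⟩
    have e1 : 2 * (1 + (K + 1)) - 3 = 2 * K + 1 := by omega
    rw [e1]
    refine growth (q := 2 * (K + 1)) (p := 0) (by omega) ?_
    intro m n hm hn
    exact le_g (goodK_one (LG_mono (LG_main m hm K) (by omega) le_rfl))
  · rw [if_neg hk1]
    obtain ⟨j, rfl⟩ : ∃ j, k = 2 + j := ⟨k - 2, by omega⟩
    have e1 : 2 * (2 + j + c - (2 + j)) = 2 * c := by omega
    rw [e1]
    refine growth (q := 3 * c) (p := j + 1) (by omega) ?_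
    intro m n hm hn
    obtain ⟨n', rfl⟩ : ∃ n', n = n' + j := ⟨n - j, by omega⟩
    refine le_g (KG_main m j ?_)
    have e2 : 3 * c * m = 3 * m * c := by ring
    omega

end Pool.Agent.Results.MP_06d6be_co.FlatsLowerBound
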