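import Pool.Agent.helper59.LSZ.H11

/-!
# Pate's permanent inequality for matrices of size at most 4 or of small rank

`(k!)^m (per B)^k ≤ per (J_k ⊗ B)` for every `k` and every complex positive semidefinite `m × m`
matrix `B` with `m ≤ 4` or `r (r + 1) ⋯ (r + m - 1) ≤ m ^ m`, where `r` is the rank of `B`, and the
log-convexity in `k` of `per (J_k ⊗ B) / (k!)^m` if `m ≤ 4` or `2 r ≤ m + 1`.
-/

set_option autoImplicit false
open scoped ComplexOrder

namespace Pool.Agent.Results.MP_2dd521_co.PateSmallSizeOrRank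

/-- `per (J_k ⊗ B)`, where `J_k` is the `k × k` matrix with all entries `1` -/
def perJ {m : ℕ} (B : Matrix (Fin m) (Fin m) ℂ) (k : ℕ) : ℂ :=
  (Matrix.kronecker (Matrix.of fun (_ _ : Fin k) => (1 : ℂ)) B).permanent

/-- Let `B` be a complex positive semidefinite `m × m` matrix.
* If `m ≤ 4` or `r (r + 1) ⋯ (r + m - 1) ≤ m ^ m` with `r = rank B`, then
  `(k!)^m (per B)^k ≤ per (J_k ⊗ B)` for every `k`.
* If `m ≤ 4` or `2 rank B ≤ m + 1`, then the same inequality holds, and `per (J_k ⊗ B) / (k!)^m` is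
  log-convex in `k`. -/
theorem result (m : ℕ) (B : Matrix (Fin m) (Fin m) ℂ) (hB : B.PosSemidef) :
    ((m ≤ 4 ∨ B.rank.ascFactorial m ≤ m ^ m) →
      ∀ k : ℕ, ((k.factorial : ℕ) : ℂ) ^ m * B.permanent ^ k ≤ perJ B k) ∧
    ((m ≤ 4 ∨ 2 * B.rank ≤ m + 1) →
      (∀ k : ℕ, ((k.factorial : ℕ) : ℂ) ^ m * B.permanent ^ k ≤ perJ B k) ∧
      (∀ k : ℕ, ((k + 2 : ℕ) : ℂ) ^ m * perJ B (k + 1) ^ 2 ≤
        ((k + 1 : ℕ) : ℂ) ^ m * (perJ B k * perJ B (k + 2)))) := by
  have h0 : (m ≤ 4 ∨ B.rank.ascFactorial m ≤ m ^ m) →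
      ∀ k : ℕ, ((k.factorial : ℕ) : ℂ) ^ m * B.permanent ^ k ≤ perJ B k := by
    rintro (h | h) k
    · exact (Pool.Agent.helper59.Fock.pate_four h B hB k).1
    · exact Pool.Agent.helper80.LSZ.pate_rank B hB B.rank le_rfl h k
  refine ⟨h0, fun h => ⟨h0 (h.imp_right fun h => ?_), fun k => ?_⟩⟩
  · have h1 := Pool.Agent.helper80.LSZ.asc_le B.rank m (m : ℝ) (Nat.cast_nonneg m) (by
      have h2 : 2 * (B.rank : ℝ) ≤ m + 1 := by exact_mod_cast h
      linarith)
    exact_mod_cast h1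
  · rcases h with h | h
    · exact (Pool.Agent.helper59.Fock.pate_four h B hB k).2
    · exact Pool.Agent.helper59.Fock.pate_rank_conv B hB h k

end Pool.Agent.Results.MP_2dd521_co.PateSmallSizeOrRank
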