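import Pool.Agent.helper16.LSZ.F5

/-!
# Pate's permanent inequality for matrices of size 3

`(k!)^3 (per B)^k ≤ per (J_k ⊗ B)` for every complex positive semidefinite `3 × 3` matrix `B`
and every `k`, and the log-convexity in `k` of `per (J_k ⊗ B) / (k!)^3`.
-/

set_option autoImplicit false
open scoped ComplexOrder

namespace Pool.Agent.Results.MP_2dd521_co.PateThreeByThree

/-- `per (J_k ⊗ B)`, where `J_k` is the `k × k` matrix with all entries `1` -/
def perJ (B : Matrix (Fin 3) (Fin 3) ℂ) (k : ℕ) : ℂ :=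
  (Matrix.kronecker (Matrix.of fun (_ _ : Fin k) => (1 : ℂ)) B).permanent

/-- Pate's inequality for `3 × 3` matrices and all `k`, and the log-convexity of
`per (J_k ⊗ B) / (k!)^3` from which it follows. -/
theorem result (B : Matrix (Fin 3) (Fin 3) ℂ) (hB : B.PosSemidef) :
    (∀ k : ℕ, ((k.factorial : ℕ) : ℂ) ^ 3 * B.permanent ^ k ≤ perJ B k) ∧
    (∀ k : ℕ, ((k + 2 : ℕ) : ℂ) ^ 3 * perJ B (k + 1) ^ 2 ≤
      ((k + 1 : ℕ) : ℂ) ^ 3 * (perJ B k * perJ B (k + 2))) :=
  ⟨fun k => (Pool.Agent.helper16.Fock.pate_three B hB k).1,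
    fun k => (Pool.Agent.helper16.Fock.pate_three B hB k).2.2⟩

end Pool.Agent.Results.MP_2dd521_co.PateThreeByThree
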